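import Pool.Agent.H91.RF.TargetsK

/-!
# rf_modules GEOK: directions in boxes
-/

open MeasureTheory Set Filter Topology Metric
open Pool.Agent.H91.RD Pool.Agent.H91.RF

namespace Pool.Agent.H26.RF

theorem geok (hE0 : T_E0) (hE2 : T_E2) : T_GEOK := by
  intro N U b hC hne hb κ hκ
  obtain ⟨δ, hδ, R, hR, hE⟩ := hE2 N U hC (κ / 2) (by positivity)
  have hρ : 0 < min (κ / 2) (min (δ * b) (b / 2)) := by positivity
  refine ⟨min (κ / 2) (min (δ * b) (b / 2)), hρ, R / b, by positivity, ?_⟩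
  intro t ht x0 e hN hbt y hy
  set ρ := min (κ / 2) (min (δ * b) (b / 2)) with hρdef
  have h1 : ρ ≤ κ / 2 := min_le_left _ _
  have h2 : ρ ≤ δ * b := (min_le_right _ _).trans (min_le_left _ _)
  have h3 : ρ ≤ b / 2 := (min_le_right _ _).trans (min_le_right _ _)
  obtain ⟨he, ξ, e0, hD, hee⟩ := hN
  have ht0 : 0 < t := lt_of_lt_of_le (by positivity) ht
  have hRt : R ≤ b * t := by
    have := (div_le_iff₀ hb).1 ht
    linarith [mul_comm t b]
  have hd : infDist x0 U - ρ * t ≤ infDist y U := by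
    have := infDist_le_infDist_add_dist (s := U) (x := x0) (y := y)
    rw [dist_comm] at this
    linarith
  have hpos : 0 < infDist y U := by
    have : ρ * t ≤ b / 2 * t := mul_le_mul_of_nonneg_right h3 ht0.le
    have : 0 < b * t := by positivity
    linarith
  obtain ⟨ξ', e', hD'⟩ := hE0 N U y hpos
  have hxy : dist x0 y ≤ δ * infDist x0 U := by
    rw [dist_comm]
    calc dist y x0 ≤ ρ * t := hy
      _ ≤ δ * b * t := mul_le_mul_of_nonneg_right h2 ht0.le
      _ = δ * (b * t) := by ring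
      _ ≤ δ * infDist x0 U := mul_le_mul_of_nonneg_left hbt hδ.le
  have hk := hE x0 ξ e0 y ξ' e' hD hD' (hRt.trans hbt) hxy
  refine ⟨he, ξ', e', hD', ?_⟩
  calc ‖e - e'‖ = ‖(e - e0) + (e0 - e')‖ := by congr 1; abel
    _ ≤ ‖e - e0‖ + ‖e0 - e'‖ := norm_add_le _ _
    _ ≤ κ := by linarith

end Pool.Agent.H26.RF
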